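import Mathlib

set_option autoImplicit false

namespace Pool.Agent.Results.MP_b90bcc_co.Characterization

/-- `A` is the arc relation of a tournament on `V` (`A u v` says that `u → v`). -/
def IsTournament {V : Type} (A : V → V → Prop) : Prop :=
  (∀ v, ¬ A v v) ∧ ∀ u v, u ≠ v → (A u v ↔ ¬ A v u)

/-- The partial order decomposition number of a tournament: the least `m` such that the set of
arcs is the union of `m` transitive sets of arcs `P 0, …, P (m - 1)`. -/
noncomputable def pod {V : Type} (A : V → V → Prop) : ℕ :=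
  sInf {m | ∃ P : Fin m → V → V → Prop,
    (∀ i a b c, P i a b → P i b c → P i a c) ∧ ∀ a b, A a b ↔ ∃ i, P i a b}

/-- The subtournament induced on the vertex set `X`. -/
def sub {V : Type} (A : V → V → Prop) (X : Finset V) : X → X → Prop := fun a b => A a b

/-- Some tournament on at most `k` vertices has `pod` at least `s`. -/
def Admissible (k s : ℕ) : Prop :=
  ∃ (V : Type) (_ : Fintype V) (A : V → V → Prop),
    IsTournament A ∧ Fintype.card V ≤ k ∧ s ≤ pod A

/-- Every finite tournament of large `pod` has a subtournament on at most `k` vertices whose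
`pod` is at least `s`. -/
def LocalToGlobal (k s : ℕ) : Prop :=
  ∃ N : ℕ, ∀ (V : Type) [Fintype V] (A : V → V → Prop), IsTournament A → N ≤ pod A →
    ∃ X : Finset V, X.card ≤ k ∧ s ≤ pod (sub A X)

section basic

variable {V : Type}

theorem pod_le {A : V → V → Prop} {m : ℕ} (P : Fin m → V → V → Prop)
    (h1 : ∀ i a b c, P i a b → P i b c → P i a c) (h2 : ∀ a b, A a b ↔ ∃ i, P i a b) :
    pod A ≤ m := Nat.sInf_le ⟨P, h1, h2⟩

/-- The defining set is nonempty for finite tournaments, so that `pod` is a true minimum. -/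
theorem exists_decomp [Finite V] {A : V → V → Prop} (hA : IsTournament A) :
    ∃ P : Fin (pod A) → V → V → Prop,
      (∀ i a b c, P i a b → P i b c → P i a c) ∧ ∀ a b, A a b ↔ ∃ i, P i a b := by
  have hne : {m | ∃ P : Fin m → V → V → Prop,
      (∀ i a b c, P i a b → P i b c → P i a c) ∧ ∀ a b, A a b ↔ ∃ i, P i a b}.Nonempty := by
    obtain ⟨n, ⟨e⟩⟩ := Finite.exists_equiv_fin (V × V)
    refine ⟨n, fun i a b => A a b ∧ e (a, b) = i, ?_, ?_⟩
    · rintro i a b c ⟨h1, h2⟩ ⟨h3, h4⟩
      have h5 := e.injective (h2.trans h4.symm)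
      simp only [Prod.mk.injEq] at h5
      obtain ⟨h5, -⟩ := h5
      subst h5
      exact absurd h1 (hA.1 _)
    · intro a b
      constructor
      · intro h
        exact ⟨e (a, b), h, rfl⟩
      · rintro ⟨i, h, -⟩
        exact h
  exact Nat.sInf_mem hne

/-- A tournament whose vertex set splits into two transitive parts has `pod` at most `3`. -/
theorem pod_le_three {A : V → V → Prop} (f : V → Bool)
    (hf : ∀ a b c, f a = f b → f b = f c → A a b → A b c → A a c) : pod A ≤ 3 := by
  refine pod_le (m := 3) (fun i a b => A a b ∧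
    (match i with
      | 0 => f a = true ∧ f b = false
      | 1 => f a = false ∧ f b = true
      | 2 => f a = f b)) ?_ ?_
  · intro i a b c
    match i with
    | 0 =>
      rintro ⟨_, h1, h2⟩ ⟨_, h3, h4⟩
      rw [h2] at h3
      exact absurd h3 (by simp)
    | 1 =>
      rintro ⟨_, h1, h2⟩ ⟨_, h3, h4⟩
      rw [h2] at h3
      exact absurd h3 (by simp)
    | 2 =>
      rintro ⟨h1, h2⟩ ⟨h3, h4⟩
      exact ⟨hf a b c h2 h4 h1 h3, h2.trans h4⟩
  · intro a b
    constructor
    · intro h
      rcases hfa : f a with _ | _ <;> rcases hfb : f b with _ | _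
      · exact ⟨2, h, rfl⟩
      · exact ⟨1, h, rfl, rfl⟩
      · exact ⟨0, h, rfl, rfl⟩
      · exact ⟨2, h, rfl⟩
    · rintro ⟨i, h, -⟩
      exact h

end basic

/-! ### Shift graphs -/

/-- Colourings of increasing tuples: for every number `m` of colours there are two consecutive
tuples with the same colour. -/
theorem shift_colour (r : ℕ) : ∀ m : ℕ, ∃ n : ℕ, ∀ c : (Fin (r + 1) → ℕ) → Fin m,
    ∃ w : Fin (r + 2) → ℕ, StrictMono w ∧ (∀ i, w i < n) ∧ c (Fin.init w) = c (Fin.tail w) := by
  induction r with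
  | zero =>
    intro m
    refine ⟨m + 1, fun c => ?_⟩
    obtain ⟨a, b, hab, h⟩ := Fintype.exists_ne_map_eq_of_card_lt
      (fun a : Fin (m + 1) => c (fun _ => (a : ℕ))) (by simp)
    have key : ∀ a b : Fin (m + 1), a < b →
        c (fun _ => (a : ℕ)) = c (fun _ => (b : ℕ)) →
        ∃ w : Fin (0 + 2) → ℕ, StrictMono w ∧ (∀ i, w i < m + 1) ∧
          c (Fin.init w) = c (Fin.tail w) := by
      intro a b hab h
      refine ⟨![(a : ℕ), b], ?_, ?_, ?_⟩
      · intro i j hij
        fin_cases i <;> fin_cases j <;> simp_all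
      · intro i
        fin_cases i
        · exact a.2
        · exact b.2
      · have e1 : Fin.init ![(a : ℕ), b] = fun _ => (a : ℕ) := by
          funext i; fin_cases i; rfl
        have e2 : Fin.tail ![(a : ℕ), b] = fun _ => (b : ℕ) := by
          funext i; fin_cases i; rfl
        rw [e1, e2]
        exact h
    rcases lt_or_gt_of_ne hab with h1 | h1
    · exact key a b h1 h
    · exact key b a h1 h.symm
  | succ r ih =>
    intro m
    obtain ⟨n, hn⟩ := ih (Fintype.card (Finset (Fin m)))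
    refine ⟨n, fun c => ?_⟩
    classical
    let D : (Fin (r + 1) → ℕ) → Finset (Fin m) := fun x =>
      Finset.univ.filter fun i => ∃ z : Fin (r + 2) → ℕ, StrictMono z ∧ (∀ i, z i < n) ∧
        Fin.tail z = x ∧ c z = i
    obtain ⟨w, hw1, hw2, hw3⟩ := hn (fun x => Fintype.equivFin _ (D x))
    have hD : D (Fin.init w) = D (Fin.tail w) := (Fintype.equivFin _).injective hw3
    have h1 : c w ∈ D (Fin.tail w) := by
      simp only [D, Finset.mem_filter, Finset.mem_univ, true_and]
      exact ⟨w, hw1, hw2, rfl, rfl⟩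
    rw [← hD] at h1
    simp only [D, Finset.mem_filter, Finset.mem_univ, true_and] at h1
    obtain ⟨z, hz1, hz2, hz3, hz4⟩ := h1
    have hz0 : z 0 < w 0 := by
      have h2 : w 0 = z 1 := by
        have := congrFun hz3 0
        simpa [Fin.tail, Fin.init] using this.symm
      rw [h2]
      exact hz1 (by simp)
    refine ⟨Fin.cons (z 0) w, ?_, ?_, ?_⟩
    · rw [Fin.strictMono_iff_lt_succ]
      intro i
      refine Fin.cases ?_ (fun j => ?_) i
      · simpa using hz0
      · have : (Fin.cons (z 0) w : Fin (r + 1 + 2) → ℕ) (Fin.castSucc j.succ) =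
            w (Fin.castSucc j) := by
          rw [← Fin.succ_castSucc, Fin.cons_succ]
        rw [this, Fin.cons_succ]
        exact hw1 (Fin.castSucc_lt_succ)
    · intro i
      refine Fin.cases ?_ (fun j => ?_) i
      · simpa using hz2 0
      · simpa using hw2 j
    · have e1 : Fin.init (Fin.cons (z 0) w : Fin (r + 1 + 2) → ℕ) = z := by
        funext i
        refine Fin.cases ?_ (fun j => ?_) i
        · rfl
        · have h3 := congrFun hz3 j
          simp only [Fin.tail, Fin.init] at h3 ⊢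
          rw [← Fin.succ_castSucc, Fin.cons_succ, h3]
      have e2 : Fin.tail (Fin.cons (z 0) w : Fin (r + 1 + 2) → ℕ) = w := Fin.tail_cons _ _
      rw [e1, e2, hz4]

/-! ### The tournament on increasing tuples -/

/-- Increasing tuples of length `r + 2` with entries below `n`. -/
def Vtx (r n : ℕ) : Type := {x : Fin (r + 2) → ℕ // StrictMono x ∧ ∀ i, x i < n}

instance (r n : ℕ) : Finite (Vtx r n) := by
  refine Finite.of_injective
    (fun x : Vtx r n => (fun i => (⟨x.1 i, x.2.2 i⟩ : Fin n) : Fin (r + 2) → Fin n)) ?_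
  intro x y h
  apply Subtype.ext
  funext i
  have := congrFun h i
  simpa using this

noncomputable instance (r n : ℕ) : Fintype (Vtx r n) := Fintype.ofFinite _

/-- `y` arises from `x` by deleting the first entry and adding a new last entry. -/
def sh {r n : ℕ} (x y : Vtx r n) : Prop := Fin.init y.1 = Fin.tail x.1

/-- Lexicographic order. -/
def lx {r n : ℕ} (x y : Vtx r n) : Prop := toLex x.1 < toLex y.1

/-- Forward arcs are the shift pairs. -/
def Arc {r n : ℕ} (x y : Vtx r n) : Prop := (lx x y ∧ sh x y) ∨ (lx y x ∧ ¬ sh y x)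

theorem lx_of_zero {r n : ℕ} {x y : Vtx r n} (h : x.1 0 < y.1 0) : lx x y :=
  ⟨0, fun j hj => absurd hj (Fin.not_lt_zero j), h⟩

theorem lx_of_sh {r n : ℕ} {x y : Vtx r n} (h : sh x y) : lx x y := by
  apply lx_of_zero
  have h1 := congrFun h 0
  simp only [Fin.init, Fin.tail] at h1
  have h2 : y.1 0 = x.1 (Fin.succ 0) := by simpa using h1
  rw [h2]
  exact x.2.1 (Fin.succ_pos 0)

theorem sh_apply {r n : ℕ} {x y : Vtx r n} (h : sh x y) (j : ℕ) (hj : j + 1 < r + 2) :
    y.1 ⟨j, by omega⟩ = x.1 ⟨j + 1, hj⟩ :=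
  congrFun h ⟨j, by omega⟩

theorem lx_trichotomy {r n : ℕ} {x y : Vtx r n} (h : x ≠ y) : lx x y ∨ lx y x := by
  have : toLex x.1 ≠ toLex y.1 := fun h1 => h (Subtype.ext (toLex.injective h1))
  exact lt_or_gt_of_ne this

theorem lx_asymm {r n : ℕ} {x y : Vtx r n} (h : lx x y) : ¬ lx y x := lt_asymm h

theorem lx_trans {r n : ℕ} {x y z : Vtx r n} (h : lx x y) (h' : lx y z) : lx x z :=
  lt_trans h h'

theorem arc_tournament (r n : ℕ) : IsTournament (Arc : Vtx r n → Vtx r n → Prop) := by
  refine ⟨?_, ?_⟩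
  · rintro v (⟨h, -⟩ | ⟨h, -⟩) <;> exact lt_irrefl _ h
  · intro u v huv
    rcases lx_trichotomy huv with h | h
    · have h' := lx_asymm h
      unfold Arc
      constructor
      · rintro (⟨-, h1⟩ | ⟨h1, -⟩)
        · rintro (⟨h2, -⟩ | ⟨-, h2⟩)
          · exact h' h2
          · exact h2 h1
        · exact absurd h1 h'
      · intro h1
        left
        refine ⟨h, ?_⟩
        by_contra h2
        exact h1 (Or.inr ⟨h, h2⟩)
    · have h' := lx_asymm h
      unfold Arc
      constructor
      · rintro (⟨h1, -⟩ | ⟨-, h1⟩)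
        · exact absurd h1 h'
        · rintro (⟨-, h2⟩ | ⟨h2, -⟩)
          · exact h1 h2
          · exact h' h2
      · intro h1
        right
        refine ⟨h, ?_⟩
        intro h2
        exact h1 (Or.inl ⟨h, h2⟩)

/-- `pod` is unbounded on these tournaments. -/
theorem large_pod (r N : ℕ) : ∃ n : ℕ, N ≤ pod (Arc : Vtx r n → Vtx r n → Prop) := by
  obtain ⟨n, hn⟩ := shift_colour (r + 2) N
  refine ⟨n, ?_⟩
  by_contra hlt
  push Not at hlt
  obtain ⟨P, hP1, hP2⟩ := exists_decomp (arc_tournament r n)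
  have hN : 0 < N := by omega
  -- every increasing `(r+3)`-tuple below `n` is coloured
  have hcol : ∀ z : Fin (r + 3) → ℕ, ∀ (h1 : StrictMono z) (h2 : ∀ i, z i < n),
      ∃ i, P i ⟨Fin.init z, fun a b hab => h1 (by simpa using hab), fun i => h2 _⟩
        ⟨Fin.tail z, fun a b hab => h1 (by simpa using hab), fun i => h2 _⟩ := by
    intro z h1 h2
    apply (hP2 _ _).1
    have hs : sh (r := r) (n := n)
        ⟨Fin.init z, fun a b hab => h1 (by simpa using hab), fun i => h2 _⟩
        ⟨Fin.tail z, fun a b hab => h1 (by simpa using hab), fun i => h2 _⟩ := by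
      unfold sh
      funext i
      simp [Fin.init, Fin.tail]
    exact Or.inl ⟨lx_of_sh hs, hs⟩
  choose c hc using hcol
  classical
  obtain ⟨w, hw1, hw2, hw3⟩ := hn (fun z =>
    if h : StrictMono z ∧ ∀ i, z i < n then ⟨c z h.1 h.2, lt_trans (c z h.1 h.2).2 hlt⟩
    else ⟨0, hN⟩)
  have hi : StrictMono (Fin.init w) ∧ ∀ i, Fin.init w i < n :=
    ⟨fun a b hab => hw1 (by simpa using hab), fun i => hw2 _⟩
  have ht : StrictMono (Fin.tail w) ∧ ∀ i, Fin.tail w i < n :=
    ⟨fun a b hab => hw1 (by simpa using hab), fun i => hw2 _⟩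
  rw [dif_pos hi, dif_pos ht] at hw3
  have hcc : c (Fin.init w) hi.1 hi.2 = c (Fin.tail w) ht.1 ht.2 := by
    apply Fin.ext
    simpa using hw3
  have h1 := hc (Fin.init w) hi.1 hi.2
  have h2 := hc (Fin.tail w) ht.1 ht.2
  rw [hcc] at h1
  have h3 : Fin.init (Fin.tail w) = Fin.tail (Fin.init w) := by
    funext i
    simp [Fin.init, Fin.tail]
  have hv : (⟨Fin.tail (Fin.init w), fun a b hab => hi.1 (by simpa using hab),
      fun i => hi.2 _⟩ : Vtx r n) = ⟨Fin.init (Fin.tail w), fun a b hab => ht.1 (by simpa using hab),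
      fun i => ht.2 _⟩ := Subtype.ext h3.symm
  rw [hv] at h1
  have h4 := hP1 _ _ _ _ h1 h2
  have h5 := (hP2 _ _).2 ⟨_, h4⟩
  have hlt2 : (Fin.init (Fin.init w)) 0 < (Fin.tail (Fin.tail w)) 0 := by
    simp only [Fin.init, Fin.tail]
    apply hw1
    rw [Fin.lt_def]
    simp only [Fin.val_castSucc, Fin.val_succ]
    simp
  rcases h5 with ⟨-, h6⟩ | ⟨h6, -⟩
  · have h7 := congrFun h6 0
    simp only [Fin.init, Fin.tail] at h7
    have h8 := hw1.injective h7
    rw [Fin.ext_iff] at h8
    simp only [Fin.val_castSucc, Fin.val_succ] at h8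
    simp at h8
  · exact lx_asymm (lx_of_zero (by exact hlt2)) h6

/-! ### Small sets of tuples are two-colourable -/

theorem walk_elem {r n : ℕ} {X : Finset (Vtx r n)} (G : SimpleGraph X)
    (hG : ∀ x y, G.Adj x y → sh x.1 y.1 ∨ sh y.1 x.1) {x y : X} (p : G.Walk x y) :
    ∀ a : ℕ, p.length ≤ a → ∀ h : a + p.length < r + 2, ∃ b, ∃ hb : b < r + 2,
      y.1.1 ⟨b, hb⟩ = x.1.1 ⟨a, by omega⟩ := by
  induction p with
  | nil =>
    intro a _ h
    exact ⟨a, by simpa using h, rfl⟩
  | @cons u v w huv q ih =>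
    intro a h1 h2
    rw [SimpleGraph.Walk.length_cons] at h1 h2
    rcases hG _ _ huv with h | h
    · -- `v` is the shift of `u`
      obtain ⟨b, hb, h3⟩ := ih (a - 1) (by omega) (by omega)
      refine ⟨b, hb, h3.trans ?_⟩
      have h4 := sh_apply h (a - 1) (by omega)
      have h5 : (⟨a - 1 + 1, by omega⟩ : Fin (r + 2)) = ⟨a, by omega⟩ :=
        Fin.ext (by show a - 1 + 1 = a; omega)
      rw [h4, h5]
    · obtain ⟨b, hb, h3⟩ := ih (a + 1) (by omega) (by omega)
      exact ⟨b, hb, h3.trans (sh_apply h a (by omega)).symm⟩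

theorem sh_index {r n : ℕ} {y y' : Vtx r n} (h : sh y y') {b b' e : ℕ} (hb : b < r + 2)
    (hb' : b' < r + 2) (h1 : y.1 ⟨b, hb⟩ = e) (h2 : y'.1 ⟨b', hb'⟩ = e) : b = b' + 1 := by
  by_cases hlast : b' < r + 1
  · have h4 : y'.1 ⟨b', hb'⟩ = y.1 ⟨b' + 1, by omega⟩ := sh_apply h b' (by omega)
    rw [h2, ← h1] at h4
    have h5 := y.2.1.injective h4
    simpa using h5
  · exfalso
    have hb'' : b' = r + 1 := by omega
    subst hb''
    have h4 : y'.1 ⟨r, by omega⟩ = y.1 ⟨r + 1, by omega⟩ := sh_apply h r (by omega)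
    have h5 : y'.1 ⟨r, by omega⟩ < y'.1 ⟨r + 1, hb'⟩ := y'.2.1 (by simp)
    have h6 : y.1 ⟨b, hb⟩ ≤ y.1 ⟨r + 1, by omega⟩ := y.2.1.monotone (by
      rw [Fin.le_def]
      simp
      omega)
    omega

theorem two_colour {r n k : ℕ} (hk : 2 * k ≤ r + 2) (X : Finset (Vtx r n)) (hX : X.card ≤ k) :
    ∃ f : X → Bool, ∀ x y : X, sh x.1 y.1 → f x ≠ f y := by
  classical
  rcases X.eq_empty_or_nonempty with rfl | hne
  · exact ⟨fun _ => true, fun x => absurd x.2 (Finset.notMem_empty _)⟩
  have hk1 : 1 ≤ k := by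
    have := hne.card_pos
    omega
  let G : SimpleGraph X := SimpleGraph.fromRel fun x y => sh x.1 y.1
  have hG : ∀ x y, G.Adj x y → sh x.1 y.1 ∨ sh y.1 x.1 := fun x y h => h.2
  have key : ∀ y : X, ∃ b, ∃ hb : b < r + 2,
      y.1.1 ⟨b, hb⟩ = ((G.connectedComponentMk y).out).1.1 ⟨k, by omega⟩ := by
    intro y
    have hr : G.Reachable (G.connectedComponentMk y).out y := by
      apply SimpleGraph.ConnectedComponent.exact
      exact Quot.out_eq _
    obtain ⟨p, hp⟩ := hr.exists_isPath
    have hl := hp.length_lt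
    rw [Fintype.card_coe] at hl
    exact walk_elem G hG p k (by omega) (by omega)
  choose b hb hbe using key
  refine ⟨fun x => decide (Even (b x)), fun x y hxy => ?_⟩
  have hne' : x ≠ y := by
    rintro rfl
    exact lt_irrefl _ (lx_of_sh hxy)
  have hadj : G.Adj x y := ⟨hne', Or.inl hxy⟩
  have hc : G.connectedComponentMk x = G.connectedComponentMk y :=
    SimpleGraph.ConnectedComponent.sound hadj.reachable
  have h1 := hbe x
  rw [hc] at h1
  have h2 := sh_index hxy (hb x) (hb y) h1 (hbe y)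
  intro h3
  rw [decide_eq_decide, h2, Nat.even_add_one] at h3
  tauto

theorem small_pod {r n k : ℕ} (hk : 2 * k ≤ r + 2) (X : Finset (Vtx r n)) (hX : X.card ≤ k) :
    pod (sub Arc X) ≤ 3 := by
  obtain ⟨f, hf⟩ := two_colour hk X hX
  refine pod_le_three f ?_
  intro a b c h1 h2 h3 h4
  have h3' : lx b.1 a.1 := by
    rcases h3 with ⟨-, h⟩ | ⟨h, -⟩
    · exact absurd h1 (hf a b h)
    · exact h
  have h4' : lx c.1 b.1 := by
    rcases h4 with ⟨-, h⟩ | ⟨h, -⟩
    · exact absurd h2 (hf b c h)
    · exact h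
  exact Or.inr ⟨lx_trans h4' h3', fun h => hf c a h (h1.trans h2).symm⟩

theorem not_localToGlobal (k s : ℕ) (hs : 4 ≤ s) : ¬ LocalToGlobal k s := by
  rintro ⟨N, hN⟩
  obtain ⟨n, hn⟩ := large_pod (2 * k) N
  obtain ⟨X, hX1, hX2⟩ := hN (Vtx (2 * k) n) Arc (arc_tournament _ _) hn
  have := small_pod (k := k) (by omega) X hX1
  omega

/-! ### The cases `s ≤ 3` -/

theorem exists_arc {V : Type} {A : V → V → Prop} (h : 1 ≤ pod A) : ∃ a b, A a b := by
  by_contra hno
  push Not at hno
  have := pod_le (A := A) (m := 0) (fun i _ _ => i.elim0) (fun i => i.elim0)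
    (fun a b => ⟨fun h => absurd h (hno a b), fun ⟨i, _⟩ => i.elim0⟩)
  omega

theorem exists_triangle {V : Type} {A : V → V → Prop} (hA : IsTournament A) (h : 2 ≤ pod A) :
    ∃ a b c, A a b ∧ A b c ∧ A c a := by
  by_contra hno
  push Not at hno
  have := pod_le (A := A) (m := 1) (fun _ => A) (by
    intro i a b c h1 h2
    by_cases hac : a = c
    · subst hac
      have hab : a ≠ b := by
        rintro rfl
        exact hA.1 _ h1
      exact absurd h2 ((hA.2 a b hab).1 h1)
    · exact (hA.2 a c hac).2 (hno a b c h1 h2)) (fun a b => ⟨fun h => ⟨0, h⟩, fun ⟨_, h⟩ => h⟩)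
  omega

theorem one_le_pod {V : Type} [Finite V] {A : V → V → Prop} (hA : IsTournament A) {a b : V}
    (h : A a b) : 1 ≤ pod A := by
  obtain ⟨P, -, h2⟩ := exists_decomp hA
  obtain ⟨i, -⟩ := (h2 a b).1 h
  have := i.2
  omega

theorem three_le_pod {V : Type} [Finite V] {A : V → V → Prop} (hA : IsTournament A) {a b c : V}
    (h1 : A a b) (h2 : A b c) (h3 : A c a) : 3 ≤ pod A := by
  obtain ⟨P, hP1, hP2⟩ := exists_decomp hA
  have hasym : ∀ u v, A u v → ¬ A v u := by
    intro u v huv
    have hne : u ≠ v := by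
      rintro rfl
      exact hA.1 _ huv
    exact (hA.2 u v hne).1 huv
  obtain ⟨i, hi⟩ := (hP2 a b).1 h1
  obtain ⟨j, hj⟩ := (hP2 b c).1 h2
  obtain ⟨l, hl⟩ := (hP2 c a).1 h3
  have hij : i ≠ j := by
    rintro rfl
    exact hasym c a h3 ((hP2 a c).2 ⟨i, hP1 _ _ _ _ hi hj⟩)
  have hjl : j ≠ l := by
    rintro rfl
    exact hasym a b h1 ((hP2 b a).2 ⟨j, hP1 _ _ _ _ hj hl⟩)
  have hli : l ≠ i := by
    rintro rfl
    exact hasym b c h2 ((hP2 c b).2 ⟨l, hP1 _ _ _ _ hl hi⟩)
  have hcard : ({i, j, l} : Finset (Fin (pod A))).card = 3 := by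
    rw [Finset.card_eq_three]
    exact ⟨i, j, l, hij, hli.symm, hjl, rfl⟩
  have := Finset.card_le_univ ({i, j, l} : Finset (Fin (pod A)))
  rw [hcard, Fintype.card_fin] at this
  exact this

theorem sub_tournament {V : Type} {A : V → V → Prop} (hA : IsTournament A) (X : Finset V) :
    IsTournament (sub A X) :=
  ⟨fun v => hA.1 v, fun u v huv => hA.2 u v fun h => huv (Subtype.ext h)⟩

theorem le_three_iff (k s : ℕ) (hs : 0 < s) (hks : Admissible k s) :
    LocalToGlobal k s ↔ s ≤ 3 := by
  constructor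
  · intro h
    by_contra hlt
    exact not_localToGlobal k s (by omega) h
  · intro hs3
    obtain ⟨V, _, A, hA, hV, hpod⟩ := hks
    classical
    by_cases hs1 : s = 1
    · subst hs1
      obtain ⟨a, b, hab⟩ := exists_arc hpod
      have hne : a ≠ b := by
        rintro rfl
        exact hA.1 _ hab
      have h2 : 2 ≤ Fintype.card V := by
        have := Finset.card_le_univ ({a, b} : Finset V)
        rw [Finset.card_pair hne] at this
        exact this
      refine ⟨1, fun W _ B hB hBp => ?_⟩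
      obtain ⟨u, v, huv⟩ := exists_arc hBp
      refine ⟨{u, v}, (Finset.card_le_two).trans (h2.trans hV), ?_⟩
      exact one_le_pod (sub_tournament hB _) (a := ⟨u, by simp⟩) (b := ⟨v, by simp⟩) huv
    · obtain ⟨a, b, c, h1, h2, h3⟩ := exists_triangle hA (by omega)
      have hne : ∀ u v, A u v → u ≠ v := by
        rintro u v huv rfl
        exact hA.1 _ huv
      have h3' : 3 ≤ Fintype.card V := by
        have := Finset.card_le_univ ({a, b, c} : Finset V)
        rw [Finset.card_eq_three.2 ⟨a, b, c, hne _ _ h1, (hne _ _ h3).symm, hne _ _ h2, rfl⟩] at this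
        exact this
      refine ⟨2, fun W _ B hB hBp => ?_⟩
      obtain ⟨u, v, w, h4, h5, h6⟩ := exists_triangle hB hBp
      refine ⟨{u, v, w}, (Finset.card_le_three).trans (h3'.trans hV), hs3.trans ?_⟩
      exact three_le_pod (sub_tournament hB _) (a := ⟨u, by simp⟩) (b := ⟨v, by simp⟩)
        (c := ⟨w, by simp⟩) h4 h5 h6

/-- **Complete answer.** Let `k` and `s` be positive integers such that some tournament on at most
`k` vertices has partial order decomposition number at least `s`. Then every tournament of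
sufficiently large partial order decomposition number has a subtournament on at most `k` vertices
with partial order decomposition number at least `s` if and only if `s ≤ 3`.
Moreover such a `k` exists for every `s`, so that Q1 has a negative answer (take `s = 4`). -/
theorem result :
    (∀ k s : ℕ, 0 < k → 0 < s → Admissible k s → (LocalToGlobal k s ↔ s ≤ 3)) ∧
      ∀ s : ℕ, ∃ k : ℕ, 0 < k ∧ Admissible k s := by
  refine ⟨fun k s _ hs hks => le_three_iff k s hs hks, fun s => ?_⟩
  obtain ⟨n, hn⟩ := large_pod 0 s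
  exact ⟨Fintype.card (Vtx 0 n) + 1, Nat.succ_pos _, Vtx 0 n, inferInstance, Arc,
    arc_tournament 0 n, Nat.le_succ _, hn⟩

end Pool.Agent.Results.MP_b90bcc_co.Characterization
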